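import Pool.Agent.V1132.WR.Rel

/-!
# The relative theorem for the groups of `Pool.Agent.Y69.WhDef`
-/

namespace Pool.Agent.V1132.WR

open Finset MonoidAlgebra Pool.Agent.Y69

noncomputable section

variable {Γ G : Type} [Group Γ] [Group G]

theorem Whmap_comp {K : Type} [Group K] (f : Γ →* G) (g : G →* K) (x : H970SH.Wh Γ) :
    Whmap g (Whmap f x) = Whmap (g.comp f) x := by
  obtain ⟨y, rfl⟩ := QuotientAddGroup.mk'_surjective _ x
  rw [Whmap_mk, Whmap_mk, Whmap_mk, K1map_comp, mapDomainRingHom_comp']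

theorem Wh_rel (φ : Γ →* G) (hφ : NoFusion φ) (x : WhColim Γ) (n : ℕ) (hn : 0 < n)
    (hx : n • Whmap φ (Whassembly Γ x) = 0) : ∃ k : ℕ, 0 < k ∧ k • x = 0 := by
  obtain ⟨y, rfl⟩ := toWh_surjective x
  rw [Whassembly_toWh, Whmap_mk, ← map_nsmul, QuotientAddGroup.mk'_apply,
    QuotientAddGroup.eq_zero_iff] at hx
  obtain ⟨k, hk, h1⟩ := K1_rel φ hφ y n hn hx
  exact ⟨k, hk, by rw [← map_nsmul, h1, map_zero]⟩

theorem Wh_fin [Finite Γ] (φ : Γ →* G) (hφ : NoFusion φ) (x : H970SH.Wh Γ) (n : ℕ) (hn : 0 < n)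
    (hx : n • Whmap φ x = 0) : ∃ k : ℕ, 0 < k ∧ k • x = 0 := by
  let H : FinSub Γ := ⟨⊤, inferInstance⟩
  let e : Γ →* H.1 := (Subgroup.topEquiv (G := Γ)).symm.toMonoidHom
  have he : H.1.subtype.comp e = MonoidHom.id Γ := by
    ext g
    rfl
  have h1 : Whassembly Γ (Colim.ι _ _ H (Whmap e x)) = x := by
    rw [Whassembly_ι, Whmap_comp, he]
    obtain ⟨y, rfl⟩ := QuotientAddGroup.mk'_surjective _ x
    rw [Whmap_mk, mapDomainRingHom_id, K1map_id]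
  obtain ⟨k, hk, h2⟩ := Wh_rel φ hφ (Colim.ι _ _ H (Whmap e x)) n hn (by rw [h1]; exact hx)
  refine ⟨k, hk, ?_⟩
  have h3 := congrArg (Whassembly Γ) h2
  rw [map_nsmul, h1, map_zero] at h3
  exact h3

end

end Pool.Agent.V1132.WR

namespace Pool.Agent.V1132.WR

theorem fj_rel {Γ G : Type} [Group Γ] [Group G] (φ : Γ →* G) (hφ : NoFusion φ)
    (x : Pool.Agent.Y69.FJ.ColimWh Γ) (n : ℕ) (hn : 0 < n)
    (hx : n • Pool.Agent.Y69.FJ.Wh.map φ (Pool.Agent.Y69.FJ.assembly Γ x) = 0) :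
    ∃ k : ℕ, 0 < k ∧ k • x = 0 :=
  Wh_rel φ hφ x n hn hx

theorem fj_fin {Γ G : Type} [Group Γ] [Group G] [Finite Γ] (φ : Γ →* G) (hφ : NoFusion φ)
    (x : Pool.Agent.Y69.FJ.Wh Γ) (n : ℕ) (hn : 0 < n)
    (hx : n • Pool.Agent.Y69.FJ.Wh.map φ x = 0) :
    ∃ k : ℕ, 0 < k ∧ k • x = 0 :=
  Wh_fin φ hφ x n hn hx

end Pool.Agent.V1132.WR
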