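import Pool.Agent.V1132.WR.Sym
import Pool.Agent.Y69.WhDef

/-!
# The relative form of the theorem on the Whitehead groups of the finite subgroups
-/

namespace Pool.Agent.V1132.WR

open Finset MonoidAlgebra H970SH H842 Pool.Agent.Y69 Pool.Agent.Y69.Thy Pool.Agent.Y69.StepC
  Pool.Agent.Y69.Main

noncomputable section

variable {Γ G : Type} [Group Γ] [Group G]

/-- the elements of finite order of `Γ` which become conjugate in `G` are conjugate in `Γ`, up to
inversion -/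
def NoFusion (φ : Γ →* G) : Prop :=
  ∀ a b : Γ, IsOfFinOrder a → IsOfFinOrder b → IsConj (φ a) (φ b) → IsConj a b ∨ IsConj a b⁻¹

theorem conj_inv' {a b : Γ} (hab : IsConj a b) : IsConj a⁻¹ b⁻¹ := by
  obtain ⟨c, hc⟩ := isConj_iff.1 hab
  exact isConj_iff.2 ⟨c, by rw [← hc]; group⟩

theorem class_of_conj {h : Γ → ℤ} (hh : ∀ x y, h (x * y) = h (y * x)) {a b : Γ}
    (hab : IsConj a b) : h a = h b := by
  obtain ⟨c, hc⟩ := isConj_iff.1 hab
  rw [← hc, hh (c * a) c⁻¹, ← mul_assoc, inv_mul_cancel, one_mul]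

open Classical in
/-- the extension of a symmetric class function -/
def ext (φ : Γ →* G) (h : Γ → ℤ) (g : G) : ℤ :=
  if hg : ∃ a : Γ, IsOfFinOrder a ∧ IsConj (φ a) g then h hg.choose + h hg.choose⁻¹ else 0

theorem ext_class (φ : Γ →* G) (hφ : NoFusion φ) {h : Γ → ℤ}
    (hh : ∀ x y, h (x * y) = h (y * x)) (x y : G) : ext φ h (x * y) = ext φ h (y * x) := by
  have hc : IsConj (x * y) (y * x) := isConj_iff.2 ⟨y, by group⟩
  unfold ext
  by_cases hg : ∃ a : Γ, IsOfFinOrder a ∧ IsConj (φ a) (x * y)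
  · have hg' : ∃ a : Γ, IsOfFinOrder a ∧ IsConj (φ a) (y * x) := by
      obtain ⟨a, ha, h1⟩ := hg
      exact ⟨a, ha, h1.trans hc⟩
    rw [dif_pos hg, dif_pos hg']
    have e1 := hg.choose_spec
    have e2 := hg'.choose_spec
    rcases hφ _ _ e1.1 e2.1 ((e1.2.trans hc).trans e2.2.symm) with h3 | h3
    · rw [class_of_conj hh h3, class_of_conj hh (conj_inv' h3)]
    · have h4 : IsConj hg.choose⁻¹ hg'.choose := by
        have h5 := conj_inv' h3
        rwa [inv_inv] at h5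
      rw [class_of_conj hh h3, class_of_conj hh h4, add_comm]
  · have hg' : ¬ ∃ a : Γ, IsOfFinOrder a ∧ IsConj (φ a) (y * x) := by
      rintro ⟨a, ha, h1⟩
      exact hg ⟨a, ha, h1.trans hc.symm⟩
    rw [dif_neg hg, dif_neg hg']

theorem ext_apply (φ : Γ →* G) (hφ : NoFusion φ) {h : Γ → ℤ}
    (hh : ∀ x y, h (x * y) = h (y * x)) {a : Γ} (ha : IsOfFinOrder a) :
    ext φ h (φ a) = h a + h a⁻¹ := by
  unfold ext
  have hg : ∃ b : Γ, IsOfFinOrder b ∧ IsConj (φ b) (φ a) := ⟨a, ha, IsConj.refl _⟩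
  rw [dif_pos hg]
  have e1 := hg.choose_spec
  rcases hφ _ _ e1.1 ha e1.2 with h3 | h3
  · rw [class_of_conj hh h3, class_of_conj hh (conj_inv' h3)]
  · have h4 : IsConj hg.choose⁻¹ a := by
      have h5 := conj_inv' h3
      rwa [inv_inv] at h5
    rw [class_of_conj hh h3, class_of_conj hh h4, add_comm]

section tr

variable {p : ℕ} [hp : Fact p.Prime]

/-- comparison of the traces -/
theorem trace_compare (hodd : Odd p) (φ : Γ →* G) (hφ : NoFusion φ)
    (TΓ : K1 (MonoidAlgebra ℤ Γ) →+ Lam p) (TG : K1 (MonoidAlgebra ℤ G) →+ Lam p)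
    {h : Γ → ℤ} (hh : ∀ x y, h (x * y) = h (y * x))
    (h1 : ∀ (C : Type) [CommGroup C] [Fintype C] (_ : Nat.card C ∣ p - 1) (ψ : C →* Γ)
        (u : Additive (MonoidAlgebra ℤ C)ˣ),
        TΓ (cl (mapUnit (mapDomainRingHom ℤ ψ) (unit1 u.toMul))) =
          ∑ c, bb (Int.castRingHom ℤ_[p]) u c * ((h (ψ c) : ℤ) : Lam p))
    (h2 : ∀ (C : Type) [CommGroup C] [Fintype C] (_ : Nat.card C ∣ p - 1) (ψ : C →* G)
        (u : Additive (MonoidAlgebra ℤ C)ˣ),
        TG (cl (mapUnit (mapDomainRingHom ℤ ψ) (unit1 u.toMul))) =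
          ∑ c, bb (Int.castRingHom ℤ_[p]) u c * ((ext φ h (ψ c) : ℤ) : Lam p))
    {y : K1Colim ℤ Γ} (hy : y ∈ SE ℤ Γ (p - 1)) :
    TG (K1map (mapDomainRingHom ℤ φ) (K1assembly ℤ Γ y)) =
      TΓ (K1assembly ℤ Γ y) + TΓ (K1assembly ℤ Γ y) := by
  classical
  unfold SE at hy
  induction hy using AddSubgroup.closure_induction with
  | mem y hy =>
    obtain ⟨C, i1, i2, hC, ψ, hψ, u, rfl⟩ := hy
    letI : Fintype C := Fintype.ofFinite C
    rw [assembly_sym, K1map_cl, mapUnit_comp]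
    rw [h1 C hC ψ u, h2 C hC (φ.comp ψ) u]
    have e1 : ∀ c : C, ((ext φ h ((φ.comp ψ) c) : ℤ) : Lam p) =
        ((h (ψ c) : ℤ) : Lam p) + ((h (ψ c⁻¹) : ℤ) : Lam p) := by
      intro c
      have e2 : IsOfFinOrder (ψ c) := MonoidHom.isOfFinOrder ψ (isOfFinOrder_of_finite c)
      have e3 : ext φ h ((φ.comp ψ) c) = h (ψ c) + h (ψ c⁻¹) := by
        rw [map_inv]
        exact ext_apply φ hφ hh e2
      rw [e3]
      push_cast
      rfl
    have e4 : ∑ c : C, bb (Int.castRingHom ℤ_[p]) u c * ((h (ψ c⁻¹) : ℤ) : Lam p) =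
        ∑ c : C, bb (Int.castRingHom ℤ_[p]) u c * ((h (ψ c) : ℤ) : Lam p) := by
      rw [← Equiv.sum_comp (Equiv.inv C) (fun c => bb (Int.castRingHom ℤ_[p]) u c *
        ((h (ψ c⁻¹) : ℤ) : Lam p))]
      refine Finset.sum_congr rfl fun c _ => ?_
      show bb (Int.castRingHom ℤ_[p]) u c⁻¹ * ((h (ψ (c⁻¹)⁻¹) : ℤ) : Lam p) = _
      rw [bb_symm hodd hC, inv_inv]
    calc _ = ∑ c : C, (bb (Int.castRingHom ℤ_[p]) u c * ((h (ψ c) : ℤ) : Lam p) +
          bb (Int.castRingHom ℤ_[p]) u c * ((h (ψ c⁻¹) : ℤ) : Lam p)) := by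
          refine Finset.sum_congr rfl fun c _ => ?_
          rw [e1 c, mul_add]
      _ = _ := by rw [Finset.sum_add_distrib, e4]
  | zero => simp only [map_zero, add_zero]
  | add x y _ _ hx hy =>
    simp only [map_add]
    rw [hx, hy]
    abel
  | neg x _ hx =>
    simp only [map_neg]
    rw [hx]
    abel

end tr

/-- **Theorem.** Let `φ : Γ → G` be a homomorphism such that the elements of finite order of `Γ`
which become conjugate in `G` are conjugate in `Γ`, up to inversion. If the image in `Wh(G)` of an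
element of `colim K₁(ℤ[H])`, `H` the finite subgroups of `Γ`, is torsion then the element is
torsion. -/
theorem K1_rel (φ : Γ →* G) (hφ : NoFusion φ) (x : K1Colim ℤ Γ) (n : ℕ) (hn : 0 < n)
    (hx : n • K1map (mapDomainRingHom ℤ φ) (K1assembly ℤ Γ x) ∈ trivialUnits G) :
    ∃ k : ℕ, 0 < k ∧ k • x = 0 := by
  obtain ⟨k, E, hk, hE, h1⟩ := cov_all x
  obtain ⟨p, hp, hp2, hpE⟩ := Nat.exists_prime_gt_modEq_one 2 hE.ne'
  have : Fact p.Prime := ⟨hp⟩
  have hodd : Odd p := hp.odd_of_ne_two (by omega)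
  have hE' : E ∣ p - 1 := (Nat.modEq_iff_dvd' hp.one_lt.le).1 hpE.symm
  obtain ⟨T, hT⟩ := exists_TT (G := Γ) (Int.castRingHom ℤ_[p]) hodd
  obtain ⟨T', hT'⟩ := exists_TT (G := G) (Int.castRingHom ℤ_[p]) hodd
  have h2 : n • (k • x) ∈ SE ℤ Γ (p - 1) := AddSubgroup.nsmul_mem _ (SE_mono ℤ hE' h1) n
  obtain ⟨l, hl, h3⟩ := separation (Int.castRingHom ℤ_[p]) (Int.cast_injective) T
    (fun h hh => (hT h hh).1) h2 (by
      intro h hh
      have hcl := ext_class φ hφ hh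
      have h4 := trivialUnits_le (T' (ext φ h)) hodd (hT' (ext φ h) hcl).2 hx
      have h5 := trace_compare hodd φ hφ (T h) (T' (ext φ h)) hh (hT h hh).1
        (hT' (ext φ h) hcl).1 h2
      have h6 : T' (ext φ h) (K1map (mapDomainRingHom ℤ φ) (K1assembly ℤ Γ (n • (k • x)))) = 0 := by
        rw [smul_smul, mul_comm, mul_smul, map_nsmul, map_nsmul, map_nsmul]
        have h7 : T' (ext φ h) (n • K1map (mapDomainRingHom ℤ φ) (K1assembly ℤ Γ x)) = 0 := h4
        rw [map_nsmul (K1assembly ℤ Γ), map_nsmul (K1map _), h7, smul_zero]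
      rw [h6, ← two_mul] at h5
      have h8 : ((2 : ℕ) : Lam p) * T h (K1assembly ℤ Γ (n • (k • x))) = 0 := by
        rw [Nat.cast_ofNat]
        exact h5.symm
      exact lam_cancel (Nat.coprime_two_left.2 hodd) h8)
  refine ⟨l * (n * k), Nat.mul_pos hl (Nat.mul_pos hn hk), ?_⟩
  rw [mul_smul, mul_smul, h3]

end

end Pool.Agent.V1132.WR
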