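import Mathlib
import Pool.Agent.Y69.Main

/-!
# Symmetry of the character of a unit of an integral group ring of a finite abelian group
-/

namespace Pool.Agent.V1132.WR

open Finset MonoidAlgebra Pool.Agent.Y69 Pool.Agent.Y69.Thy Pool.Agent.Y69.StepC

noncomputable section

variable {C : Type} [CommGroup C]

/-- the involution -/
def iv (C : Type) [CommGroup C] : C →* C := invMonoidHom

theorem iv_inj : Function.Injective (iv C) := fun a b h => inv_injective h

theorem coeff_iv [Finite C] (x : MonoidAlgebra ℤ C) (c : C) :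
    (mapDomainRingHom ℤ (iv C) x).coeff c = x.coeff c⁻¹ := by
  have h : iv C c⁻¹ = c := by
    show (c⁻¹)⁻¹ = c
    rw [inv_inv]
  conv_lhs => rw [← h]
  rw [mapDomainRingHom_apply, mapDomain, coeff_ofCoeff, Finsupp.mapDomain_apply iv_inj]

theorem iv_iv (x : MonoidAlgebra ℤ C) :
    mapDomainRingHom ℤ (iv C) (mapDomainRingHom ℤ (iv C) x) = x := by
  rw [← RingHom.comp_apply, ← mapDomainRingHom_comp]
  have h : (iv C).comp (iv C) = MonoidHom.id C := by
    ext c
    show (c⁻¹)⁻¹ = c
    rw [inv_inv]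
  rw [h, mapDomainRingHom_id]
  rfl

theorem coeff_mul_one [Fintype C] [DecidableEq C] (x y : MonoidAlgebra ℤ C) :
    (x * y).coeff 1 = ∑ c, x.coeff c * y.coeff c⁻¹ := by
  induction x using MonoidAlgebra.induction_linear with
  | zero => simp
  | add a b ha hb =>
    rw [add_mul, coeff_add, Finsupp.add_apply, ha, hb, ← Finset.sum_add_distrib]
    refine Finset.sum_congr rfl fun c _ => ?_
    rw [coeff_add, Finsupp.add_apply, add_mul]
  | single g a =>
    rw [Finset.sum_eq_single g]
    · rw [coeff_single, Finsupp.single_eq_same]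
      induction y using MonoidAlgebra.induction_linear with
      | zero => simp
      | add a b ha hb =>
        rw [mul_add, coeff_add, Finsupp.add_apply, ha, hb, coeff_add, Finsupp.add_apply, mul_add]
      | single h b =>
        rw [single_mul_single, coeff_single, coeff_single, Finsupp.single_apply,
          Finsupp.single_apply]
        by_cases hh : h = g⁻¹
        · subst hh
          rw [mul_inv_cancel, if_pos rfl, if_pos rfl]
        · rw [if_neg, if_neg hh, mul_zero]
          intro h2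
          exact hh (eq_inv_of_mul_eq_one_right h2)
    · intro d _ hd
      rw [coeff_single, Finsupp.single_eq_of_ne hd, zero_mul]
    · intro h; exact absurd (Finset.mem_univ g) h

/-- a unit which is the inverse of its adjoint is trivial -/
theorem trivial_of_unitary [Finite C] (v : MonoidAlgebra ℤ C)
    (h : v * mapDomainRingHom ℤ (iv C) v = 1) : ∃ c : C, v = single c 1 ∨ v = single c (-1) := by
  classical
  haveI : Fintype C := Fintype.ofFinite C
  have h1 : ∑ c, v.coeff c * v.coeff c = 1 := by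
    have h2 := coeff_mul_one v (mapDomainRingHom ℤ (iv C) v)
    rw [h, one_def, coeff_single, Finsupp.single_eq_same] at h2
    rw [h2]
    refine Finset.sum_congr rfl fun c _ => ?_
    rw [coeff_iv, inv_inv]
  obtain ⟨c0, hc0⟩ : ∃ c, v.coeff c ≠ 0 := by
    by_contra hcon
    push Not at hcon
    rw [Finset.sum_eq_zero (fun c _ => by rw [hcon c, zero_mul])] at h1
    exact one_ne_zero h1.symm
  have h3 : v.coeff c0 * v.coeff c0 + ∑ c ∈ Finset.univ.erase c0, v.coeff c * v.coeff c = 1 := by
    rw [Finset.add_sum_erase Finset.univ (fun c => v.coeff c * v.coeff c) (Finset.mem_univ c0)]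
    exact h1
  have h4 : 1 ≤ v.coeff c0 * v.coeff c0 := by
    have := mul_self_pos.2 hc0
    omega
  have h5 : 0 ≤ ∑ c ∈ Finset.univ.erase c0, v.coeff c * v.coeff c :=
    Finset.sum_nonneg fun c _ => mul_self_nonneg _
  have h6 : ∑ c ∈ Finset.univ.erase c0, v.coeff c * v.coeff c = 0 := by linarith
  have h7 : ∀ c, c ≠ c0 → v.coeff c = 0 := by
    intro c hc
    have := (Finset.sum_eq_zero_iff_of_nonneg (fun c _ => mul_self_nonneg (v.coeff c))).1 h6 c
      (Finset.mem_erase.2 ⟨hc, Finset.mem_univ c⟩)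
    exact mul_self_eq_zero.1 this
  have h8 : v.coeff c0 * v.coeff c0 = 1 := by linarith
  have h9 : v = single c0 (v.coeff c0) := by
    ext c
    rw [coeff_single, Finsupp.single_apply]
    by_cases hc : c0 = c
    · subst hc
      rw [if_pos rfl]
    · rw [if_neg hc]
      exact h7 c (Ne.symm hc)
  refine ⟨c0, ?_⟩
  rcases mul_self_eq_one_iff.1 h8 with h10 | h10
  · left
    rw [h9, h10]
  · right
    rw [h9, h10]

section bb

variable {p : ℕ} [hp : Fact p.Prime]

theorem lam_cancel {m : ℕ} (hm : m.Coprime p) {x : Lam p} (h : (m : Lam p) * x = 0) : x = 0 := by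
  funext n
  have h1 : (m : ZMod (p ^ (n + 1))) * x n = 0 := congrFun h n
  have h2 : IsUnit (m : ZMod (p ^ (n + 1))) :=
    (ZMod.isUnit_iff_coprime m _).2 (Nat.Coprime.pow_right _ hm)
  exact (h2.mul_right_eq_zero).1 h1

theorem cop (hodd : Odd p) [Finite C] (hC : Nat.card C ∣ p - 1) :
    (2 * Nat.card C).Coprime p := by
  have h1 : (Nat.card C).Coprime p := by
    have h2 : Nat.Coprime (p - 1) p := by
      have h3 : p = (p - 1) + 1 := (Nat.succ_pred_eq_of_pos hp.out.pos).symm
      have h4 : Nat.Coprime (p - 1) ((p - 1) + 1) := by simp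
      rwa [← h3] at h4
    exact Nat.Coprime.coprime_dvd_left hC h2
  exact Nat.Coprime.mul_left (Nat.coprime_two_left.2 hodd) h1

theorem bb_symm (hodd : Odd p) [Finite C] (hC : Nat.card C ∣ p - 1)
    (u : Additive (MonoidAlgebra ℤ C)ˣ) (c : C) :
    bb (Int.castRingHom ℤ_[p]) u c⁻¹ = bb (Int.castRingHom ℤ_[p]) u c := by
  set T := theory (Int.castRingHom ℤ_[p]) (p := p) Int.cast_injective with hT
  set us : Additive (MonoidAlgebra ℤ C)ˣ := umap ℤ (iv C) u with hus
  have h1 : bb (Int.castRingHom ℤ_[p]) us (iv C c) = bb (Int.castRingHom ℤ_[p]) u c :=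
    T.b_map hC (iv C) iv_inj u c
  have h2 : bb (Int.castRingHom ℤ_[p]) us = bb (Int.castRingHom ℤ_[p]) u := by
    set v : Additive (MonoidAlgebra ℤ C)ˣ := us - u with hv
    have hvv : ((v.toMul : (MonoidAlgebra ℤ C)ˣ) : MonoidAlgebra ℤ C) *
        mapDomainRingHom ℤ (iv C) ((v.toMul : (MonoidAlgebra ℤ C)ˣ) : MonoidAlgebra ℤ C) = 1 := by
      have e1 : ((v.toMul : (MonoidAlgebra ℤ C)ˣ) : MonoidAlgebra ℤ C) =
          mapDomainRingHom ℤ (iv C) ((u.toMul : (MonoidAlgebra ℤ C)ˣ) : MonoidAlgebra ℤ C) *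
          (((u.toMul)⁻¹ : (MonoidAlgebra ℤ C)ˣ) : MonoidAlgebra ℤ C) := rfl
      rw [e1, map_mul, iv_iv]
      have e2 : mapDomainRingHom ℤ (iv C)
          ((u.toMul : (MonoidAlgebra ℤ C)ˣ) : MonoidAlgebra ℤ C) *
          mapDomainRingHom ℤ (iv C) (((u.toMul)⁻¹ : (MonoidAlgebra ℤ C)ˣ) : MonoidAlgebra ℤ C) = 1 := by
        rw [← map_mul, Units.mul_inv, map_one]
      have e3 : ((u.toMul : (MonoidAlgebra ℤ C)ˣ) : MonoidAlgebra ℤ C) *
          (((u.toMul)⁻¹ : (MonoidAlgebra ℤ C)ˣ) : MonoidAlgebra ℤ C) = 1 := Units.mul_inv _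
      calc _ = (mapDomainRingHom ℤ (iv C)
            ((u.toMul : (MonoidAlgebra ℤ C)ˣ) : MonoidAlgebra ℤ C) *
          mapDomainRingHom ℤ (iv C) (((u.toMul)⁻¹ : (MonoidAlgebra ℤ C)ˣ) : MonoidAlgebra ℤ C)) *
          (((u.toMul : (MonoidAlgebra ℤ C)ˣ) : MonoidAlgebra ℤ C) *
          (((u.toMul)⁻¹ : (MonoidAlgebra ℤ C)ˣ) : MonoidAlgebra ℤ C)) := by ring
        _ = 1 := by rw [e2, e3, one_mul]
    obtain ⟨c0, hc0⟩ := trivial_of_unitary _ hvv
    have h3 : (2 * Nat.card C) • v = 0 := by
      apply Additive.toMul.injective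
      rw [toMul_nsmul, toMul_zero]
      apply Units.ext
      rw [Units.val_pow_eq_pow_val, Units.val_one]
      rcases hc0 with h4 | h4
      · rw [h4, single_pow, mul_comm, pow_mul, pow_card_eq_one', one_pow, one_pow, one_def]
      · rw [h4, single_pow, mul_comm, pow_mul, pow_card_eq_one', one_pow, pow_mul', 
          neg_one_sq, one_pow, one_def]
    have h5 : bb (Int.castRingHom ℤ_[p]) v = 0 := by
      funext d
      have h6 := T.b_nsmul hC v (2 * Nat.card C) d
      have h7 : T.b ((2 * Nat.card C) • (v : T.U C)) = 0 := by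
        have h8 : ((2 * Nat.card C) • (v : T.U C)) = (0 : T.U C) := h3
        exact (congrArg T.b h8).trans (T.b_zero hC)
      exact lam_cancel (cop hodd hC) (h6.symm.trans (congrFun h7 d))
    have h9 : us = v + u := by rw [hv, sub_add_cancel]
    rw [h9, bb_add _ hC, h5, zero_add]
  rw [h2] at h1
  exact h1

end bb

end

end Pool.Agent.V1132.WR
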